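import Pool.Agent.H.MP_e7950b_an.E

namespace Pool.Agent.Results.MP_e7950b_an.Ritt
open Pool.Agent.H.MP_e7950b_an Finset

theorem result : ∃ C : ℝ, ∀ μ : ℤ → ℝ, SymMono μ → ∀ n : ℕ, 1 ≤ n →
    (Summable fun k => |cpow μ n k - cpow μ (n + 1) k|) ∧
      (n : ℝ) * ∑' k, |cpow μ n k - cpow μ (n + 1) k| ≤ C := by
  refine ⟨54000, fun μ h n _ => ?_⟩
  obtain ⟨p, σ, l, s1, s2, hm⟩ := approx h
  have l2 := ((l.pow n).smul s1 s2).sub (l.pow (n + 1))
  refine ⟨l2.summable.abs, ?_⟩
  have := l2.bd (c := n) (C := 54000) (fun N => by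
      simpa [mul_sub, pow_succ] using hm N 1 n)
    (g := fun y => SignType.sign (cpow μ n y - cpow μ (n + 1) y)) (B := 1) (lam := 1)
    (fun y => by rcases SignType.trichotomy (SignType.sign (cpow μ n y - cpow μ (n + 1) y)) with
      e | e | e <;> simp [e]) zero_le_one fun l => by
      refine (sum_le_card_nsmul _ _ 1 fun y _ => ?_).trans ?_
      · rcases SignType.trichotomy (SignType.sign (cpow μ n y - cpow μ (n + 1) y)) with
          e | e | e <;> simp [e]
      · have : ((l : ℤ) + 1 + l).toNat = 2 * l + 1 := by omega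
        simp [this]
  simp only [Pi.sub_apply, self_mul_sign, mul_one] at this
  exact (le_abs_self _).trans this

end Pool.Agent.Results.MP_e7950b_an.Ritt
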