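import Pool.Agent.H.MP_e7950b_an.E

namespace Pool.Agent.Results.MP_e7950b_an.Weak
open Pool.Agent.H.MP_e7950b_an Finset

theorem result (m : ℕ) : ∃ C : ℝ, 0 < C ∧ ∀ μ : ℤ → ℝ, SymMono μ →
    ∀ f : ℤ → ℝ, (Summable fun k => |f k|) → ∀ lam : ℝ, 0 < lam →
      ENNReal.ofReal lam * MeasureTheory.Measure.count
        {k : ℤ | ENNReal.ofReal lam ≤ ⨆ n : ℕ, ⨆ _ : 1 ≤ n, ENNReal.ofReal
          ((n : ℝ) ^ m * |conv (conv (cpow μ n) (cpow (delta0 - μ) m)) f k|)} ≤
        ENNReal.ofReal (C * ∑' k, |f k|) := by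
  obtain ⟨C, hC⟩ : ∃ C : ℝ, C = (54000 * m) ^ m + 1 := ⟨_, rfl⟩
  have C0 : 0 < C := by rw [hC]; positivity
  refine ⟨4 * C, by positivity, fun μ h f hf lam l0 => ?_⟩
  obtain ⟨p, σ, l, s1, s2, hm⟩ := approx h
  generalize hS : {k : ℤ | ENNReal.ofReal lam ≤ ⨆ n : ℕ, ⨆ _ : 1 ≤ n, ENNReal.ofReal
    ((n : ℝ) ^ m * |conv (conv (cpow μ n) (cpow (delta0 - μ) m)) f k|)} = S
  have l1 : 0 < lam / (2 * C) := by positivity
  have k1 : ∀ x, ∃ r : ℕ, x ∈ S →
      lam / (2 * C) * (2 * r + 1) ≤ ∑ y ∈ Icc (x - r) (x + r), |f y| := by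
    intro x
    by_contra H
    push Not at H
    have hx := (H 0).1
    rw [← hS] at hx
    refine absurd hx (not_le.2 (lt_of_le_of_lt (iSup₂_le (a := ENNReal.ofReal (lam / 2)) fun n _ =>
      ENNReal.ofReal_le_ofReal ?_) ((ENNReal.ofReal_lt_ofReal_iff l0).2 (by linarith))))
    have := ((l.pow n).mul (((Lim_one.smul s1 s2).sub l).pow m)).bd (fun N => hm N m n)
      (g := fun y => f (x - y)) (B := ∑' k, |f k|)
      (fun y => hf.le_tsum _ fun _ _ => abs_nonneg _) l1.le fun r => by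
        refine le_trans (le_of_eq ?_) (H r).2.le
        refine sum_nbij' (fun y => x - y) (fun y => x - y) ?_ ?_ ?_ ?_ ?_ <;> simp <;> omega
    rw [abs_mul, abs_of_nonneg (by positivity)] at this
    refine this.trans ((mul_le_mul_of_nonneg_right (show _ ≤ C by linarith) l1.le).trans (le_of_eq ?_))
    field_simp
  choose r hr using k1
  have k2 : ∀ E : Finset ℤ, (E : Set ℤ) ⊆ S → lam * E.card ≤ 4 * C * ∑' k, |f k| := by
    intro E hE
    have := cover (fun y => abs_nonneg (f y)) l1.le r E (E.biUnion fun x => Icc (x - r x) (x + r x))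
      fun x hx => ⟨subset_biUnion_of_mem (fun x => Icc (x - r x) (x + r x)) hx, hr x (hE hx)⟩
    have a := hf.sum_le_tsum (E.biUnion fun x => Icc (x - r x) (x + r x)) fun _ _ => abs_nonneg _
    rw [div_mul_eq_mul_div, div_le_iff₀ (by positivity)] at this
    nlinarith
  have hf : S.Finite := by
    by_contra hi
    obtain ⟨N, hN⟩ := exists_nat_gt (4 * C * (∑' k, |f k|) / lam)
    obtain ⟨E, h1, h2⟩ := Set.Infinite.exists_subset_card_eq hi N
    have := k2 E h1
    rw [div_lt_iff₀ l0] at hN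
    rw [h2] at this
    linarith
  lift S to Finset ℤ using hf
  rw [MeasureTheory.Measure.count_apply_finset, ← ENNReal.ofReal_natCast,
    ← ENNReal.ofReal_mul l0.le]
  exact ENNReal.ofReal_le_ofReal (k2 S subset_rfl)

end Pool.Agent.Results.MP_e7950b_an.Weak
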